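import Pool.Agent.Lib.MP_ca0fc2_an.Mg.G121
import Pool.Agent.Lib.MP_ca0fc2_an.LD.P2

/-! Compact subsets of algebraic curves which do not contain the origin: the coordinates generate the
algebra of bounded holomorphic functions on a neighbourhood. -/

set_option autoImplicit false

open Metric Set Filter Topology MeasureTheory

namespace Pool.Agent.MPca0fc2.LS

theorem Hb.poly {E : Type*} [NormedAddCommGroup E] [NormedSpace ℂ E] {N : ℕ} {W : Set E}
    {f : Fin N → E → ℂ} (hf : ∀ j, Hb W (f j)) (P : MvPolynomial (Fin N) ℂ) :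
    Hb W fun z => MvPolynomial.eval (fun j => f j z) P := by
  induction P using MvPolynomial.induction_on with
  | C a =>
    simp only [MvPolynomial.eval_C]
    exact Hb.const W a
  | add p q hp hq =>
    simp only [map_add]
    exact hp.add hq
  | mul_X p i hp =>
    simp only [map_mul, MvPolynomial.eval_X]
    exact hp.mul (hf i)

theorem Hb.coord {N : ℕ} {W : Set (Fin N → ℂ)} {R : ℝ} (hW : ∀ y ∈ W, ‖y‖ ≤ R) (j : Fin N) :
    Hb W fun y => y j :=
  ⟨(ContinuousLinearMap.proj (R := ℂ) (φ := fun _ : Fin N => ℂ) j).differentiable.differentiableOn,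
    R, fun y hy => (norm_le_pi_norm y j).trans (hW y hy)⟩

/-- the Nullstellensatz for a finite set of common zeros -/
theorem null {N m : ℕ} (P : Fin m → MvPolynomial (Fin N) ℂ) (P0 : MvPolynomial (Fin N) ℂ)
    (hP : ∀ i, MvPolynomial.eval 0 (P i) = 0) (h0 : MvPolynomial.eval 0 P0 = 0)
    (hfin : {x : Fin N → ℂ | (∀ i, MvPolynomial.eval x (P i) = 0) ∧
      MvPolynomial.eval x P0 = 0}.Finite) (l : Fin N) :
    ∃ φ : Polynomial ℂ, φ ≠ 0 ∧ φ.eval 0 = 0 ∧ ∃ (A : Fin m → MvPolynomial (Fin N) ℂ)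
      (A0 : MvPolynomial (Fin N) ℂ), ∀ y : Fin N → ℂ, φ.eval (y l) =
        ∑ i, MvPolynomial.eval y (A i) * MvPolynomial.eval y (P i) +
          MvPolynomial.eval y P0 * MvPolynomial.eval y A0 := by
  classical
  obtain ⟨P', hP'⟩ : ∃ P' : Option (Fin m) → MvPolynomial (Fin N) ℂ,
      P' none = P0 ∧ ∀ i, P' (some i) = P i := ⟨fun o => o.elim P0 P, rfl, fun _ => rfl⟩
  obtain ⟨hP'0, hP'i⟩ := hP'
  obtain ⟨q, hq⟩ : ∃ q : MvPolynomial (Fin N) ℂ, q = ∏ s ∈ hfin.toFinset,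
    (MvPolynomial.X l - MvPolynomial.C (s l)) := ⟨_, rfl⟩
  have hqv : q ∈ MvPolynomial.vanishingIdeal ℂ
      (MvPolynomial.zeroLocus ℂ (Ideal.span (Set.range P'))) := by
    rw [MvPolynomial.mem_vanishingIdeal_iff]
    intro x hx
    rw [MvPolynomial.mem_zeroLocus_iff] at hx
    have h1 : ∀ o, MvPolynomial.eval x (P' o) = 0 := by
      intro o
      have h2 := hx (P' o) (Ideal.subset_span ⟨o, rfl⟩)
      exact (DFunLike.congr_fun (MvPolynomial.coe_aeval_eq_eval x) (P' o)).symm.trans h2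
    have hxS : x ∈ hfin.toFinset := by
      rw [Set.Finite.mem_toFinset]
      refine ⟨fun i => ?_, ?_⟩
      · rw [← hP'i]
        exact h1 _
      · rw [← hP'0]
        exact h1 _
    refine (DFunLike.congr_fun (MvPolynomial.coe_aeval_eq_eval x) q).trans ?_
    rw [hq, map_prod]
    refine Finset.prod_eq_zero hxS ?_
    rw [map_sub, MvPolynomial.eval_X, MvPolynomial.eval_C, sub_self]
  rw [MvPolynomial.vanishingIdeal_zeroLocus_eq_radical] at hqv
  obtain ⟨M, hM⟩ := hqv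
  have hM1 : q ^ (M + 1) ∈ Ideal.span (Set.range P') := by
    rw [pow_succ]
    exact Ideal.mul_mem_right _ _ hM
  rw [Ideal.mem_span_range_iff_exists_fun] at hM1
  obtain ⟨a, ha⟩ := hM1
  refine ⟨(∏ s ∈ hfin.toFinset, (Polynomial.X - Polynomial.C (s l))) ^ (M + 1), ?_, ?_,
    fun i => a (some i), a none, fun y => ?_⟩
  · exact ((Polynomial.monic_prod_of_monic _ _ fun s _ =>
      Polynomial.monic_X_sub_C (s l)).pow (M + 1)).ne_zero
  · rw [Polynomial.eval_pow, Polynomial.eval_prod]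
    have h0S : (0 : Fin N → ℂ) ∈ hfin.toFinset := by
      rw [Set.Finite.mem_toFinset]
      exact ⟨hP, h0⟩
    rw [Finset.prod_eq_zero h0S (by simp), zero_pow (Nat.succ_ne_zero M)]
  · have h1 := congrArg (MvPolynomial.eval y) ha
    rw [map_sum, Fintype.sum_option] at h1
    simp only [map_mul, hP'0, hP'i] at h1
    have h2 : MvPolynomial.eval y (q ^ (M + 1)) =
        Polynomial.eval (y l) ((∏ s ∈ hfin.toFinset, (Polynomial.X - Polynomial.C (s l))) ^
          (M + 1)) := by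
      rw [map_pow, hq, map_prod, Polynomial.eval_pow, Polynomial.eval_prod]
      congr 1
      refine Finset.prod_congr rfl fun s _ => ?_
      simp
    rw [← h2, ← h1]
    ring

theorem sphere_low {φ : Polynomial ℂ} {ρ : ℝ} (hρ : 0 < ρ) (h : ∀ ζ : ℂ, ‖ζ‖ = ρ → φ.eval ζ ≠ 0) :
    ∃ η > 0, ∀ ζ ∈ sphere (0 : ℂ) ρ, η ≤ ‖φ.eval ζ‖ := by
  have hne : (sphere (0 : ℂ) ρ).Nonempty := NormedSpace.sphere_nonempty.2 hρ.le
  obtain ⟨ζ, hζ, hmin⟩ := (isCompact_sphere (0 : ℂ) ρ).exists_isMinOn hne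
    φ.continuous.norm.continuousOn
  exact ⟨‖φ.eval ζ‖, norm_pos_iff.2 (h ζ (mem_sphere_zero_iff_norm.1 hζ)), fun x hx => hmin hx⟩

/-- **Neighbourhoods of algebraic curves.** -/
theorem curve_nbhd {N m : ℕ} (P : Fin m → MvPolynomial (Fin N) ℂ) (P0 : MvPolynomial (Fin N) ℂ)
    (h0 : MvPolynomial.eval 0 P0 = 0)
    (hfin : {x : Fin N → ℂ | (∀ i, MvPolynomial.eval x (P i) = 0) ∧
      MvPolynomial.eval x P0 = 0}.Finite) {K : Set (Fin N → ℂ)} (hK : IsCompact K)
    (hKV : ∀ x ∈ K, ∀ i, MvPolynomial.eval x (P i) = 0) (hK0 : 0 ∉ K) :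
    ∃ W : Set (Fin N → ℂ), IsOpen W ∧ K ⊆ W ∧ ∃ (G : Fin N → (Fin N → ℂ) → ℂ) (B : ℝ),
      (∀ j, DifferentiableOn ℂ (G j) W) ∧ (∀ j, ∀ y ∈ W, ‖G j y‖ ≤ B) ∧
      ∀ y ∈ W, ∑ j, y j * G j y = 1 := by
  classical
  suffices H : ∃ W : Set (Fin N → ℂ), IsOpen W ∧ K ⊆ W ∧ ∃ (G : Fin N → (Fin N → ℂ) → ℂ),
      (∀ j, Hb W (G j)) ∧ ∀ y ∈ W, ∑ j, y j * G j y = 1 by
    obtain ⟨W, h1, h2, G, h3, h4⟩ := H
    choose B hB using fun j => (h3 j).2
    exact ⟨W, h1, h2, G, ∑ j, |B j|, fun j => (h3 j).1, fun j y hy => (hB j y hy).trans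
      ((le_abs_self _).trans (Finset.single_le_sum (f := fun j => |B j|)
        (fun _ _ => abs_nonneg _) (Finset.mem_univ j))), h4⟩
  obtain ⟨R, hR⟩ := hK.isBounded.subset_ball (0 : Fin N → ℂ)
  have hcont : ∀ q : MvPolynomial (Fin N) ℂ, Continuous fun y : Fin N → ℂ =>
      ‖MvPolynomial.eval y q‖ := fun q => (MvPolynomial.continuous_eval q).norm
  by_cases hc : ∃ i, MvPolynomial.eval 0 (P i) ≠ 0
  · obtain ⟨i, hi⟩ := hc
    obtain ⟨A, hA⟩ := Pool.Agent.MPca0fc2.LP.exists_coord_split (P i)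
    have hi0 : 0 < ‖MvPolynomial.eval 0 (P i)‖ := norm_pos_iff.2 hi
    obtain ⟨W, hW⟩ : ∃ W : Set (Fin N → ℂ), W = ball 0 R ∩
      {y | ‖MvPolynomial.eval y (P i)‖ < ‖MvPolynomial.eval 0 (P i)‖ / 2} := ⟨_, rfl⟩
    have hWR : ∀ y ∈ W, ‖y‖ ≤ R := fun y hy => by
      rw [hW] at hy
      exact (mem_ball_zero_iff.1 hy.1).le
    have hlow : ∀ y ∈ W, ‖MvPolynomial.eval 0 (P i)‖ / 2 ≤
        ‖MvPolynomial.eval y (P i) - MvPolynomial.eval 0 (P i)‖ := by
      intro y hy
      rw [hW] at hy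
      have h1 := norm_sub_norm_le (MvPolynomial.eval 0 (P i)) (MvPolynomial.eval y (P i))
      rw [norm_sub_rev] at h1
      have h2 : ‖MvPolynomial.eval y (P i)‖ < ‖MvPolynomial.eval 0 (P i)‖ / 2 := hy.2
      linarith
    have hco := fun j => Hb.coord hWR j
    refine ⟨W, ?_, ?_, fun j y => MvPolynomial.eval y (A j) *
      (MvPolynomial.eval y (P i) - MvPolynomial.eval 0 (P i))⁻¹, fun j => ?_, fun y hy => ?_⟩
    · rw [hW]
      exact isOpen_ball.inter (isOpen_lt (hcont _) continuous_const)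
    · intro x hx
      rw [hW]
      refine ⟨hR hx, ?_⟩
      show ‖MvPolynomial.eval x (P i)‖ < _
      rw [hKV x hx i, norm_zero]
      linarith
    · exact (Hb.poly hco (A j)).mul (((Hb.poly hco (P i)).sub (Hb.const W _)).inv
        (half_pos hi0) hlow)
    · have h1 : MvPolynomial.eval y (P i) - MvPolynomial.eval 0 (P i) ≠ 0 := fun h => by
        have h2 := hlow y hy
        rw [h, norm_zero] at h2
        linarith
      have h2 := hA y
      calc ∑ j, y j * (MvPolynomial.eval y (A j) *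
            (MvPolynomial.eval y (P i) - MvPolynomial.eval 0 (P i))⁻¹)
          = (∑ j, y j * MvPolynomial.eval y (A j)) *
              (MvPolynomial.eval y (P i) - MvPolynomial.eval 0 (P i))⁻¹ := by
            rw [Finset.sum_mul]
            exact Finset.sum_congr rfl fun j _ => by ring
        _ = 1 := by
            have h3 : ∑ j, y j * MvPolynomial.eval y (A j) =
                MvPolynomial.eval y (P i) - MvPolynomial.eval 0 (P i) := by
              rw [h2]
              ring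
            rw [h3]
            exact mul_inv_cancel₀ h1
  · push Not at hc
    choose φ hφ1 hφ2 A A0 hφ3 using fun l => null P P0 hc h0 hfin l
    obtain ⟨Q, hQ⟩ := Pool.Agent.MPca0fc2.LP.exists_coord_split P0
    -- a lower bound for the points of `K`
    obtain ⟨ε, hε, hεK⟩ : ∃ ε > 0, ∀ y ∈ K, ∃ l, ε ≤ ‖y l‖ := by
      obtain ⟨ε, hε, h1⟩ := Metric.isOpen_iff.1 hK.isClosed.isOpen_compl (0 : Fin N → ℂ) hK0
      refine ⟨ε, hε, fun y hy => ?_⟩
      by_contra hcon
      push Not at hcon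
      have h2 : ‖y‖ < ε := (pi_norm_lt_iff hε).2 hcon
      exact h1 (mem_ball_zero_iff.2 h2) hy
    obtain ⟨ρ, ⟨hρ0, hρε⟩, hρ⟩ : ∃ ρ ∈ Ioo (0 : ℝ) (ε / 2),
        ρ ∉ Finset.univ.biUnion fun l => (φ l).roots.toFinset.image fun ζ => ‖ζ‖ :=
      (Set.Ioo_infinite (half_pos hε)).exists_notMem_finset _
    have hne : ∀ l, ∀ ζ : ℂ, ‖ζ‖ = ρ → (φ l).eval ζ ≠ 0 := by
      intro l ζ hζ h
      refine hρ (Finset.mem_biUnion.2 ⟨l, Finset.mem_univ l, Finset.mem_image.2 ⟨ζ, ?_, hζ⟩⟩)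
      rw [Multiset.mem_toFinset, Polynomial.mem_roots (hφ1 l)]
      exact h
    choose η hη0 hη using fun l => sphere_low hρ0 (hne l)
    obtain ⟨c, hcd⟩ : ∃ c : Fin N → (Fin N → ℂ) → ℂ, ∀ l y, c l y =
      ∑ i, MvPolynomial.eval y (A l i) * MvPolynomial.eval y (P i) := ⟨_, fun _ _ => rfl⟩
    have hccont : ∀ l, Continuous (c l) := by
      intro l
      have : c l = fun y => ∑ i, MvPolynomial.eval y (A l i) * MvPolynomial.eval y (P i) :=
        funext (hcd l)
      rw [this]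
      exact continuous_finsetSum _ fun i _ =>
        (MvPolynomial.continuous_eval _).mul (MvPolynomial.continuous_eval _)
    obtain ⟨W, hW⟩ : ∃ W : Set (Fin N → ℂ), W = ball 0 R ∩ (⋂ l, {y | ‖c l y‖ < η l / 3}) ∩
      ⋃ l, {y | ε / 2 < ‖y l‖} := ⟨_, rfl⟩
    have hWo : IsOpen W := by
      rw [hW]
      refine (isOpen_ball.inter (isOpen_iInter_of_finite fun l => ?_)).inter
        (isOpen_iUnion fun l => ?_)
      · exact isOpen_lt (hccont l).norm continuous_const
      · exact isOpen_lt continuous_const (continuous_apply l).norm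
    have hWR : ∀ y ∈ W, ‖y‖ ≤ R := fun y hy => by
      rw [hW] at hy
      exact (mem_ball_zero_iff.1 hy.1.1).le
    have hKW : K ⊆ W := by
      intro y hy
      rw [hW]
      refine ⟨⟨hR hy, mem_iInter.2 fun l => ?_⟩, ?_⟩
      · show ‖c l y‖ < η l / 3
        rw [hcd, Finset.sum_eq_zero fun i _ => by rw [hKV y hy i, mul_zero], norm_zero]
        have := hη0 l
        linarith
      · obtain ⟨l, hl⟩ := hεK y hy
        exact mem_iUnion.2 ⟨l, by show ε / 2 < ‖y l‖; linarith⟩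
    have hco := fun j => Hb.coord hWR j
    obtain ⟨G, hG1, hG2⟩ := assemble (y := fun l y => y l)
      (A := fun l y => MvPolynomial.eval y (A0 l)) (c := c)
      (Q := fun l y => MvPolynomial.eval y (Q l)) (p := fun y => MvPolynomial.eval y P0)
      (φ := φ) (ρ := ρ) (ρ' := ε / 2) (η := η) hWo hρ0 hρε hco
      (fun l => Hb.poly hco (A0 l))
      (fun l => (Hb.sum Finset.univ fun i _ =>
        (Hb.poly hco (A l i)).mul (Hb.poly hco (P i))).congr fun y _ => hcd l y)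
      (fun l => Hb.poly hco (Q l))
      (fun y _ => by
        have h1 := hQ y
        rw [h0, zero_add] at h1
        exact h1)
      hη0 hη hφ2
      (fun l y hy => by
        rw [hW] at hy
        exact (mem_iInter.1 hy.1.2 l).le)
      (fun l y _ => by
        rw [hcd, hφ3 l y]
        ring)
      (fun y hy => by
        rw [hW] at hy
        exact mem_iUnion.1 hy.2)
    exact ⟨W, hWo, hKW, G, hG1, hG2⟩

end Pool.Agent.MPca0fc2.LS
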