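import Pool.Agent.Lib.MP_ca0fc2_an.Mg.G044

/-! Campaign LS: the limits of the data over a point of the spectrum of the tame functions. -/

set_option autoImplicit false

open Metric Set Filter Topology
open Pool.Agent.Lib.MP_ca0fc2_an

namespace Pool.Agent.MPca0fc2.LS

section general

variable {X : Type*} [PseudoMetricSpace X]

/-- the ultrafilter `V` tends to `p` in `D`, and the functions in `T` have the same limits along `V` as
along `U` -/
def Over (D : Set X) (p : X) (T : Set (X → ℂ)) (U V : Ultrafilter X) : Prop :=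
  (V : Filter X) ≤ 𝓝[D] p ∧ ∀ u ∈ T, ∀ c : ℂ, Tendsto u U (𝓝 c) → Tendsto u V (𝓝 c)

/-- the filter of the sets which belong to all the ultrafilters over the same point as `U` -/
noncomputable def fib (D : Set X) (p : X) (T : Set (X → ℂ)) (U : Ultrafilter X) : Filter X :=
  𝓝[D] p ⊓ ⨅ i : {q : (X → ℂ) × ℂ // q.1 ∈ T ∧ Tendsto q.1 U (𝓝 q.2)}, comap i.1.1 (𝓝 i.1.2)

variable {D : Set X} {p : X} {T : Set (X → ℂ)} {U V : Ultrafilter X}

theorem le_fib : (V : Filter X) ≤ fib D p T U ↔ Over D p T U V := by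
  unfold fib Over
  rw [le_inf_iff, le_iInf_iff]
  refine and_congr_right fun _ => ⟨fun h u hu c hc => ?_, fun h i => ?_⟩
  · exact tendsto_iff_comap.2 (h ⟨(u, c), hu, hc⟩)
  · exact tendsto_iff_comap.1 (h i.1.1 i.2.1 i.1.2 i.2.2)

/-- the cells are a basis of the filter -/
theorem exists_cell {S : Set X} (hS : S ∈ fib D p T U) :
    ∃ (m : ℕ) (u : Fin m → X → ℂ) (c : Fin m → ℂ) (ε : ℝ), 0 < ε ∧ (∀ i, u i ∈ T) ∧
      (∀ i, Tendsto (u i) U (𝓝 (c i))) ∧
      {z | z ∈ D ∩ ball p ε ∧ ∀ i, ‖u i z - c i‖ < ε} ⊆ S := by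
  classical
  obtain ⟨A, hA, B, hB, hAB⟩ := mem_inf_iff.1 hS
  obtain ⟨e₀, he₀, hA'⟩ := Metric.mem_nhdsWithin_iff.1 hA
  obtain ⟨I, hI, V, hV, hBV⟩ := mem_iInf.1 hB
  have h1 : ∀ i : I, ∃ e > 0, ∀ z, ‖i.1.1.1 z - i.1.1.2‖ < e → z ∈ V i := by
    intro i
    obtain ⟨t, ht, htV⟩ := mem_comap.1 (hV i)
    obtain ⟨e, he, h⟩ := Metric.mem_nhds_iff.1 ht
    exact ⟨e, he, fun z hz => htV (h (by rwa [mem_ball, dist_eq_norm]))⟩
  choose e he h using h1
  have : Fintype I := hI.fintype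
  obtain ⟨ε, hε, hε0, hεe⟩ : ∃ ε > 0, ε ≤ e₀ ∧ ∀ i, ε ≤ e i := by
    rcases isEmpty_or_nonempty I with hI' | hI'
    · exact ⟨e₀, he₀, le_rfl, fun i => (hI'.false i).elim⟩
    · exact ⟨min e₀ (Finset.univ.inf' Finset.univ_nonempty e),
        lt_min he₀ ((Finset.lt_inf'_iff _).2 fun i _ => he i), min_le_left _ _,
        fun i => (min_le_right _ _).trans (Finset.inf'_le _ (Finset.mem_univ i))⟩
  let eq := Fintype.equivFin I
  refine ⟨Fintype.card I, fun k => (eq.symm k).1.1.1, fun k => (eq.symm k).1.1.2, ε, hε,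
    fun k => (eq.symm k).1.2.1, fun k => (eq.symm k).1.2.2, fun z hz => ?_⟩
  rw [hAB]
  refine ⟨hA' ⟨ball_subset_ball hε0 hz.1.2, hz.1.1⟩, ?_⟩
  rw [hBV]
  refine mem_iInter.2 fun i => h i z ?_
  have h2 := hz.2 (eq i)
  beta_reduce at h2
  rw [Equiv.symm_apply_apply] at h2
  exact h2.trans_le (hεe i)

end general

variable {n N : ℕ}

/-- the limits of the functions `f j` over the point of the spectrum of `T` given by `U` -/
def FLimits (D : Set (EuclideanSpace ℂ (Fin n))) (p : EuclideanSpace ℂ (Fin n))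
    (T : Set (EuclideanSpace ℂ (Fin n) → ℂ)) (U : Ultrafilter (EuclideanSpace ℂ (Fin n)))
    (f : Fin N → EuclideanSpace ℂ (Fin n) → ℂ) : Set (EuclideanSpace ℂ (Fin N)) :=
  {y | ∃ V : Ultrafilter (EuclideanSpace ℂ (Fin n)), Over D p T U V ∧
    ∀ j, Tendsto (f j) V (𝓝 (y j))}

variable {D : Set (EuclideanSpace ℂ (Fin n))} {p : EuclideanSpace ℂ (Fin n)}
  {T : Set (EuclideanSpace ℂ (Fin n) → ℂ)} {U : Ultrafilter (EuclideanSpace ℂ (Fin n))}
  {f : Fin N → EuclideanSpace ℂ (Fin n) → ℂ}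

theorem tendsto_toLp {l : Filter (EuclideanSpace ℂ (Fin n))} {y : EuclideanSpace ℂ (Fin N)} :
    Tendsto (fun z => WithLp.toLp 2 (fun j => f j z)) l (𝓝 y) ↔
      ∀ j, Tendsto (f j) l (𝓝 (y j)) := by
  have h1 : (fun z => WithLp.toLp 2 (fun j => f j z) :
      EuclideanSpace ℂ (Fin n) → EuclideanSpace ℂ (Fin N)) =
      (PiLp.continuousLinearEquiv 2 ℂ fun _ : Fin N => ℂ).symm ∘ fun z j => f j z := rfl
  constructor
  · intro h j
    exact ((EuclideanSpace.proj j : EuclideanSpace ℂ (Fin N) →L[ℂ] ℂ).continuous.tendsto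
      y).comp h
  · intro h
    have h2 : Tendsto (fun z j => f j z) l (𝓝 (WithLp.ofLp y)) := tendsto_pi_nhds.2 h
    rw [h1]
    exact ((PiLp.continuousLinearEquiv 2 ℂ fun _ : Fin N => ℂ).symm.continuous.tendsto _).comp h2

theorem mem_flimits {y : EuclideanSpace ℂ (Fin N)} : y ∈ FLimits D p T U f ↔
    MapClusterPt y (fib D p T U) fun z => WithLp.toLp 2 (fun j => f j z) := by
  rw [mapClusterPt_iff_ultrafilter]
  exact exists_congr fun V => and_congr le_fib.symm tendsto_toLp.symm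

theorem flimits_bound {M : ℝ} (hM : ∀ j, ∀ z ∈ D, ‖f j z‖ ≤ M) {z : EuclideanSpace ℂ (Fin n)}
    (hz : z ∈ D) : (WithLp.toLp 2 (fun j => f j z) : EuclideanSpace ℂ (Fin N)) ∈
      closedBall (0 : EuclideanSpace ℂ (Fin N)) (√(N * M ^ 2)) := by
  rw [mem_closedBall_zero_iff, EuclideanSpace.norm_eq]
  refine Real.sqrt_le_sqrt ?_
  calc ∑ j, ‖f j z‖ ^ 2 ≤ ∑ _j : Fin N, M ^ 2 :=
        Finset.sum_le_sum fun j _ => pow_le_pow_left₀ (norm_nonneg _) (hM j z hz) 2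
    _ = N * M ^ 2 := by simp

theorem flimits_compact {M : ℝ} (hM : ∀ j, ∀ z ∈ D, ‖f j z‖ ≤ M) :
    IsCompact (FLimits D p T U f) := by
  have h1 : FLimits D p T U f = {y | ClusterPt y (map (fun z => WithLp.toLp 2 (fun j => f j z))
      (fib D p T U))} := by
    ext y
    exact mem_flimits
  refine Metric.isCompact_of_isClosed_isBounded (by rw [h1]; exact isClosed_setOfPred_clusterPt) ?_
  refine (isBounded_closedBall (x := (0 : EuclideanSpace ℂ (Fin N)))
    (r := √(N * M ^ 2))).subset ?_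
  rintro y ⟨V, hV, hy⟩
  refine isClosed_closedBall.mem_of_tendsto (tendsto_toLp.2 hy) ?_
  have hD : D ∈ (V : Filter (EuclideanSpace ℂ (Fin n))) := hV.1 self_mem_nhdsWithin
  filter_upwards [hD] with z hz
  exact flimits_bound hM hz

/-- if the limits lie in the open set `W`, then the values on a cell lie in `W` -/
theorem near_flimits {M : ℝ} (hM : ∀ j, ∀ z ∈ D, ‖f j z‖ ≤ M)
    {W : Set (EuclideanSpace ℂ (Fin N))} (hW : IsOpen W) (hL : FLimits D p T U f ⊆ W) :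
    ∃ (m : ℕ) (u : Fin m → EuclideanSpace ℂ (Fin n) → ℂ) (c : Fin m → ℂ) (ε : ℝ), 0 < ε ∧
      (∀ i, u i ∈ T) ∧ (∀ i, Tendsto (u i) U (𝓝 (c i))) ∧
      ∀ z ∈ {z | z ∈ D ∩ ball p ε ∧ ∀ i, ‖u i z - c i‖ < ε},
        WithLp.toLp 2 (fun j => f j z) ∈ W := by
  have h1 : {z | WithLp.toLp 2 (fun j => f j z) ∈ W} ∈ fib D p T U := by
    rw [mem_iff_ultrafilter]
    intro V hV
    have hD : D ∈ (V : Filter (EuclideanSpace ℂ (Fin n))) := (le_fib.1 hV).1 self_mem_nhdsWithin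
    have h2 : closedBall (0 : EuclideanSpace ℂ (Fin N)) (√(N * M ^ 2)) ∈
        V.map fun z => WithLp.toLp 2 (fun j => f j z) := by
      rw [Ultrafilter.mem_map]
      exact mem_of_superset hD fun z hz => flimits_bound hM hz
    obtain ⟨y, -, hy⟩ := (isCompact_closedBall (0 : EuclideanSpace ℂ (Fin N))
      (√(N * M ^ 2))).ultrafilter_le_nhds' _ h2
    have h3 : Tendsto (fun z => WithLp.toLp 2 (fun j => f j z)) (V : Filter _) (𝓝 y) := hy
    have h4 : y ∈ W := hL ⟨V, le_fib.1 hV, tendsto_toLp.1 h3⟩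
    exact h3 (hW.mem_nhds h4)
  exact exists_cell h1

/-- If each component of the limit set over each point of the spectrum has a neighbourhood on which the
coordinate functions have bounded solutions, then the data have bounded solutions on small cells. -/
theorem cells_of_spectrum {f : Fin N → EuclideanSpace ℂ (Fin n) → ℂ} (hf : ∀ j, IsHinf D (f j))
    (H : ∀ U : Ultrafilter (EuclideanSpace ℂ (Fin n)), (U : Filter _) ≤ 𝓝[D] p →
      ∀ y ∈ FLimits D p T U f, ∃ W, IsOpen W ∧ CoordSolvable W ∧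
        connectedComponentIn (FLimits D p T U f) y ⊆ W) :
    ∀ U : Ultrafilter (EuclideanSpace ℂ (Fin n)), (U : Filter _) ≤ 𝓝[D] p → ∃ (m : ℕ)
      (u : Fin m → EuclideanSpace ℂ (Fin n) → ℂ) (c : Fin m → ℂ) (ε : ℝ), 0 < ε ∧
      (∀ i, u i ∈ T) ∧ (∀ i, Tendsto (u i) U (𝓝 (c i))) ∧
      ∃ h : Fin N → EuclideanSpace ℂ (Fin n) → ℂ,
      (∀ j, IsHinf {z | z ∈ D ∩ ball p ε ∧ ∀ i, ‖u i z - c i‖ < ε} (h j)) ∧
      ∀ z ∈ {z | z ∈ D ∩ ball p ε ∧ ∀ i, ‖u i z - c i‖ < ε}, ∑ j, f j z * h j z = 1 := by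
  classical
  intro U hU
  choose M hM using fun j => (hf j).2
  have hMM : ∀ j, ∀ z ∈ D, ‖f j z‖ ≤ ∑ j, |M j| := fun j z hz =>
    (hM j z hz).trans ((le_abs_self _).trans
      (Finset.single_le_sum (f := fun j => |M j|) (fun _ _ => abs_nonneg _) (Finset.mem_univ j)))
  obtain ⟨W, hW, hPW, hL⟩ := nhds_of_components (flimits_compact hMM) (P := CoordSolvable)
    coordSolvable_empty (fun V W hP _ _ h => hP.mono h)
    (fun V W hV hW hVo hWo hd => hV.union hW hVo hWo hd) (H U hU)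
  obtain ⟨G, hG, hG1⟩ := hPW
  obtain ⟨m, u, c, ε, hε, hu, hc, hin⟩ := near_flimits hMM hW hL
  refine ⟨m, u, c, ε, hε, hu, hc, fun j z => G j (WithLp.toLp 2 (fun j => f j z)),
    fun j => ⟨?_, ?_⟩, fun z hz => hG1 _ (hin z hz)⟩
  · refine (hG j).1.comp ?_ hin
    rw [differentiableOn_euclidean]
    exact fun j => (hf j).1.mono fun z hz => hz.1.1
  · obtain ⟨K, hK⟩ := (hG j).2
    exact ⟨K, fun z hz => hK _ (hin z hz)⟩

end Pool.Agent.MPca0fc2.LS
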